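import Mathlib
import Pool.Agent.Y103.EM.Copies

/-!
# Nontrivial evolutions of local domains over every field of characteristic zero

Mazur asked whether every reduced local algebra essentially of finite type over a field of
characteristic zero is evolutionary stable. The starting file `NontrivialEvolution` answers this
negatively for a reduced, but reducible, local ring over `ℂ` (the union of 601 curves, permuted by
the 601-st roots of unity). Here the field is arbitrary (of characteristic different from 3, 5 and
601) and the local ring is a domain: the roots of unity are replaced by the 601-st root of a new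
variable `s`, and the local ring is the one of a surface at the point `s = 1`, `x = 0`. The kernel
of the evolution can be as large as one wants.
-/

set_option autoImplicit false

namespace Pool.Agent.Results.MP_36a065_ag.LocalDomains

open MvPolynomial Pool.Agent.Y103.EM

universe u

/-- **Local domains which are not evolutionary stable, over every field of characteristic zero.**
Let `K` be any field in which `9015 = 3 * 5 * 601` is not zero (for example any field of
characteristic zero) and let `N ≥ 1`. There are a local domain `R` essentially of finite type over
`K` and a surjective, non-injective homomorphism `T → R` of `K`-algebras such that the natural map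
`R ⊗[T] Ω[T⁄K] → Ω[R⁄K]` is an isomorphism. Moreover `T` is local and essentially of finite type,
the kernel of `T → R` is killed by the maximal ideal of `T`, and it is a `K`-vector space of
dimension `N`. -/
theorem result (K : Type u) [Field K] (hK : (9015 : K) ≠ 0) (N : ℕ) (hN : 1 ≤ N) :
    ∃ (R T : Type u) (_ : CommRing R) (_ : CommRing T) (_ : Algebra K R) (_ : Algebra K T)
      (_ : Algebra T R) (_ : IsScalarTower K T R) (_ : IsLocalRing R) (_ : IsLocalRing T),
      IsDomain R ∧ Algebra.EssFiniteType K R ∧ Algebra.EssFiniteType K T ∧
      Function.Surjective (algebraMap T R) ∧ ¬ Function.Injective (algebraMap T R) ∧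
      Function.Bijective (KaehlerDifferential.mapBaseChange K T R) ∧
      IsLocalRing.maximalIdeal T * RingHom.ker (algebraMap T R) = ⊥ ∧
      Module.finrank K (RingHom.ker (algebraMap T R)) = N := by
  have h15 : (15 : K) ≠ 0 := by
    intro h
    apply hK
    have : (9015 : K) = 15 * 601 := by norm_num
    rw [this, h, zero_mul]
  have h601 : (601 : K) ≠ 0 := by
    intro h
    apply hK
    have : (9015 : K) = 15 * 601 := by norm_num
    rw [this, h, mul_zero]
  obtain ⟨R, T, i1, i2, i3, i4, i5, i6, i7, i8, h1, h2, h3, h4, h5, h6, h7⟩ :=
    exists_evolution (RingHom.ker (PhiN K N)) (RingHom.ker_isPrime _) (ptN K N)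
      (fun g hg => by
        rw [RingHom.mem_ker] at hg ⊢
        rw [← evB_PhiN, hg, map_zero])
      (fun j => FN K N j) (fun j => PhiN_FN j) (fun j p => PhiN_pderiv_FN h601 j p)
      kapN (fun j r g hg => kapN_mul j r g hg) 15 h15 kapN_FN
  refine ⟨R, T, i1, i2, i3, i4, i5, i6, i7, i8, h1, h2, h3, h4, ?_, h5, h6, ?_⟩
  · intro hinj
    have h8 : RingHom.ker (algebraMap T R) = ⊥ := (RingHom.injective_iff_ker_eq_bot _).mp hinj
    rw [h8, Fintype.card_fin] at h7
    have h9 : Module.finrank K (⊥ : Ideal T) = 0 := by
      have : Subsingleton (⊥ : Ideal T) := inferInstance
      exact Module.finrank_zero_of_subsingleton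
    omega
  · rw [h7, Fintype.card_fin]

end Pool.Agent.Results.MP_36a065_ag.LocalDomains
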